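import Mathlib

set_option autoImplicit false

/-!
# Sona maps on a finite set of dots: definitions, and the reduction

The Euclidean plane is `ℂ`.  A closed curve is a function `γ : ℝ → ℂ` of period `1`.
-/

namespace Pool.Agent.Helper36.Sona

open MeasureTheory
open scoped ContDiff ENNReal

/-- A generic closed curve of smoothness class `C^r`: an immersion of the circle `ℝ / ℤ`, nowhere
tangent to itself, with at most two portions through any point. -/
structure IsSonaCurve (r : ℕ∞) (γ : ℝ → ℂ) : Prop where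
  smooth : ContDiff ℝ r γ
  periodic : ∀ t, γ (t + 1) = γ t
  immersion : ∀ t, deriv γ t ≠ 0
  transverse : ∀ s t, γ s = γ t → (¬ ∃ m : ℤ, t = s + m) →
    LinearIndependent ℝ ![deriv γ s, deriv γ t]
  noTriple : ∀ t₁ t₂ t₃, γ t₁ = γ t₂ → γ t₂ = γ t₃ →
    (∃ m : ℤ, t₂ = t₁ + m) ∨ (∃ m : ℤ, t₃ = t₂ + m) ∨ (∃ m : ℤ, t₃ = t₁ + m)

/-- The bounded faces: the bounded connected components of the complement of the curve. -/
def boundedFaces (γ : ℝ → ℂ) : Set (Set ℂ) :=
  {C | (∃ x ∈ (Set.range γ)ᶜ, C = connectedComponentIn (Set.range γ)ᶜ x) ∧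
    Bornology.IsBounded C}

/-- A sona map on `P`: a generic closed curve with exactly `|P|` bounded faces, each of which
contains exactly one point of `P`. -/
structure IsSonaMapOn (r : ℕ∞) (P : Finset ℂ) (γ : ℝ → ℂ) : Prop extends IsSonaCurve r γ where
  card_faces : (boundedFaces γ).encard = P.card
  one_dot : ∀ C ∈ boundedFaces γ, ∃! p, p ∈ P ∧ p ∈ C

/-- The length of a closed curve. -/
noncomputable def curveLength (γ : ℝ → ℂ) : ℝ := ∫ t in (0 : ℝ)..1, ‖deriv γ t‖

/-- `L(P)`, the infimum of the lengths of the sona maps on `P`. -/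
noncomputable def L (r : ℕ∞) (P : Finset ℂ) : ℝ≥0∞ :=
  ⨅ (γ : ℝ → ℂ) (_ : IsSonaMapOn r P γ), ENNReal.ofReal (curveLength γ)

/-- lattice neighbours -/
def Nb (a b : ℤ × ℤ) : Prop :=
  b = (a.1 + 1, a.2) ∨ b = (a.1 - 1, a.2) ∨ b = (a.1, a.2 + 1) ∨ b = (a.1, a.2 - 1)

/-- The grid graph on `V` (lattice points at distance one are adjacent) has a Hamiltonian cycle:
a cyclic arrangement of the points of `V` in which consecutive points are adjacent. -/
def HasHamiltonianCycle (V : Finset (ℤ × ℤ)) : Prop :=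
  ∃ f : ZMod V.card → ℤ × ℤ, Function.Injective f ∧ (∀ i, f i ∈ V) ∧ ∀ i, Nb (f i) (f (i + 1))

/-- The scale `K = 1000 |V|`. -/
def scale (V : Finset (ℤ × ℤ)) : ℤ := 1000 * V.card

/-- `v₀`: the leftmost point of `V`, the lowest one if there are several. -/
def IsCorner (V : Finset (ℤ × ℤ)) (v₀ : ℤ × ℤ) : Prop :=
  v₀ ∈ V ∧ ∀ v ∈ V, v₀.1 < v.1 ∨ (v₀.1 = v.1 ∧ v₀.2 ≤ v.2)

/-- The cell `(i, j)` is the unit square `[i, i+1] × [j, j+1]`; this is its centre. -/
noncomputable def ctr (c : ℤ × ℤ) : ℂ := ⟨(c.1 : ℝ) + 1 / 2, (c.2 : ℝ) + 1 / 2⟩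

/-- The cells whose centres are the dots: two for each `v ∈ V`, and one more for the corner. -/
def dotCells (V : Finset (ℤ × ℤ)) (v₀ : ℤ × ℤ) : Finset (ℤ × ℤ) :=
  (V.image fun v => (scale V * v.1 - 4, scale V * v.2)) ∪
  (V.image fun v => (scale V * v.1, scale V * v.2)) ∪
  {(scale V * v₀.1 - 6, scale V * v₀.2 + 1)}

open Classical in
/-- The dots: `2 |V| + 1` points with half-integer coordinates. -/
noncomputable def dots (V : Finset (ℤ × ℤ)) (v₀ : ℤ × ℤ) : Finset ℂ := (dotCells V v₀).image ctr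

end Pool.Agent.Helper36.Sona
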